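import Mathlib

/-!
Power series in finitely many variables over the rationals: a series of order at least `n + 1` is a
combination of the variables with coefficients of order at least `n`.
-/

set_option autoImplicit false

namespace Pool.Agent.J4.H20.NH

open MvPowerSeries

/-- power series over the rationals -/
abbrev P (σ : Type) : Type := MvPowerSeries σ ℚ

lemma le_order_iff {σ : Type} (f : P σ) (n : ℕ) :
    (n : ℕ∞) ≤ f.order ↔ ∀ d : σ →₀ ℕ, Finsupp.degree d < n → coeff d f = 0 := by
  constructor
  · intro h d hd
    apply coeff_of_lt_order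
    refine lt_of_lt_of_le ?_ h
    exact_mod_cast hd
  · intro h
    exact nat_le_order h

lemma exists_index {σ : Type} (d : σ →₀ ℕ) (hd : d ≠ 0) : ∃ i, d i ≠ 0 := by
  by_contra h
  push Not at h
  exact hd (Finsupp.ext h)

lemma decomp {σ : Type} [Fintype σ] [Nonempty σ] (f : P σ) (n : ℕ) (hf : ((n + 1 : ℕ) : ℕ∞) ≤ f.order) :
    ∃ g : σ → P σ, f = ∑ i, X i * g i ∧ ∀ i, (n : ℕ∞) ≤ (g i).order := by
  classical
  rw [le_order_iff] at hf
  let c : (σ →₀ ℕ) → σ := fun d => if h : d ≠ 0 then (exists_index d h).choose else Classical.arbitrary σ
  have hc : ∀ d : σ →₀ ℕ, d ≠ 0 → d (c d) ≠ 0 := by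
    intro d hd
    have := (exists_index d hd).choose_spec
    simp only [c, hd, ne_eq, not_false_eq_true, dite_true]
    exact this
  let g : σ → P σ := fun i => fun e => if c (e + Finsupp.single i 1) = i then
    coeff (e + Finsupp.single i 1) f else 0
  have hg : ∀ i e, coeff e (g i) = if c (e + Finsupp.single i 1) = i then
    coeff (e + Finsupp.single i 1) f else 0 := fun i e => rfl
  refine ⟨g, ?_, ?_⟩
  · ext d
    rw [map_sum]
    have h1 : ∀ i, coeff d (X i * g i) = if c d = i ∧ d ≠ 0 then coeff d f else 0 := by
      intro i
      rw [X, coeff_monomial_mul, one_mul]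
      by_cases hle : Finsupp.single i 1 ≤ d
      · rw [if_pos hle, hg, tsub_add_cancel_of_le hle]
        have hd0 : d ≠ 0 := by
          rintro rfl
          have := hle i
          simp at this
        simp [hd0]
      · rw [if_neg hle]
        by_cases h : c d = i ∧ d ≠ 0
        · exfalso
          apply hle
          rw [Finsupp.single_le_iff]
          have := hc d h.2
          rw [h.1] at this
          omega
        · rw [if_neg h]
    simp only [h1]
    by_cases hd : d = 0
    · subst hd
      simp only [ne_eq, not_true_eq_false, and_false, if_false, Finset.sum_const_zero]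
      apply hf
      simp
    · simp [hd]
  · intro i
    rw [le_order_iff]
    intro e he
    rw [hg]
    split_ifs with h
    · apply hf
      rw [map_add]
      simp
      omega
    · rfl

end Pool.Agent.J4.H20.NH
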