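import Pool.Agent.J4.H20.NH.A1

/-!
The fibre product `R` of `ℚ[[y, z]]` and `ℚ[[x]]` over `ℚ`, a complete local ring which is reduced but
not unmixed.
-/

set_option autoImplicit false

namespace Pool.Agent.J4.H20.NH

noncomputable section

open MvPowerSeries

abbrev A : Type := P (Fin 2)
abbrev B : Type := P Unit

/-- The fibre product of `ℚ[[y, z]]` and `ℚ[[x]]` over `ℚ`. -/
def R : Subalgebra ℚ (A × B) where
  carrier := {p | constantCoeff p.1 = constantCoeff p.2}
  mul_mem' := by
    intro a b ha hb
    simp only [Set.mem_ofPred_eq] at *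
    simp [ha, hb]
  add_mem' := by
    intro a b ha hb
    simp only [Set.mem_ofPred_eq] at *
    simp [ha, hb]
  algebraMap_mem' := by
    intro r
    simp only [Set.mem_ofPred_eq, Prod.algebraMap_apply]
    rw [MvPowerSeries.algebraMap_apply, MvPowerSeries.algebraMap_apply]
    simp

lemma mem_R (p : A × B) : p ∈ R ↔ constantCoeff p.1 = constantCoeff p.2 := Iff.rfl

/-- the constant coefficient -/
def cc : R →+* ℚ := constantCoeff.comp ((RingHom.fst A B).comp R.subtype)

lemma cc_apply (p : R) : cc p = constantCoeff p.1.1 := rfl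
lemma cc_apply' (p : R) : cc p = constantCoeff p.1.2 := p.2

lemma isUnit_iff (p : R) : IsUnit p ↔ cc p ≠ 0 := by
  constructor
  · intro h
    exact (h.map cc).ne_zero
  · intro h
    have h1 : IsUnit p.1.1 := by
      rw [isUnit_iff_constantCoeff]
      exact isUnit_iff_ne_zero.2 h
    have h2 : IsUnit p.1.2 := by
      rw [isUnit_iff_constantCoeff]
      rw [cc_apply'] at h
      exact isUnit_iff_ne_zero.2 h
    obtain ⟨u, hu⟩ := h1
    obtain ⟨v, hv⟩ := h2
    have hu' : p.1.1 * (↑u⁻¹ : A) = 1 := by rw [← hu]; exact u.mul_inv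
    have hv' : p.1.2 * (↑v⁻¹ : B) = 1 := by rw [← hv]; exact v.mul_inv
    have hmem : ((↑u⁻¹ : A), (↑v⁻¹ : B)) ∈ R := by
      rw [mem_R]
      have e1 := congrArg constantCoeff hu'
      have e2 := congrArg constantCoeff hv'
      rw [map_mul, map_one, ← cc_apply] at e1
      rw [map_mul, map_one, ← cc_apply'] at e2
      exact mul_left_cancel₀ h (e1.trans e2.symm)
    refine IsUnit.of_mul_eq_one ⟨_, hmem⟩ ?_
    apply Subtype.ext
    apply Prod.ext
    · exact hu'
    · exact hv'

instance : Nontrivial R := inferInstance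

instance isLocal : IsLocalRing R := by
  refine IsLocalRing.of_isUnit_or_isUnit_one_sub_self ?_
  intro a
  rw [isUnit_iff, isUnit_iff, map_sub, map_one]
  by_contra h
  push Not at h
  obtain ⟨h1, h2⟩ := h
  rw [h1] at h2
  norm_num at h2

lemma mem_max (p : R) : p ∈ IsLocalRing.maximalIdeal R ↔ cc p = 0 := by
  rw [IsLocalRing.mem_maximalIdeal, mem_nonunits_iff, isUnit_iff, not_not]

/-- projection to `ℚ[[y, z]]` -/
def toA : R →+* A := (RingHom.fst A B).comp R.subtype
/-- projection to `ℚ[[x]]` -/
def toB : R →+* B := (RingHom.snd A B).comp R.subtype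

lemma toA_surj : Function.Surjective toA := by
  intro f
  refine ⟨⟨(f, C (constantCoeff f)), ?_⟩, rfl⟩
  rw [mem_R]
  simp

lemma toB_surj : Function.Surjective toB := by
  intro f
  refine ⟨⟨(C (constantCoeff f), f), ?_⟩, rfl⟩
  rw [mem_R]
  simp

/-- a Noetherian ring is a Noetherian module over a ring which maps onto it -/
lemma noeth_of_surj {S T : Type} [CommRing S] [CommRing T] [IsNoetherianRing T] [Algebra S T]
    (h : Function.Surjective (algebraMap S T)) : IsNoetherian S T := by
  have : RingHomSurjective (algebraMap S T) := ⟨h⟩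
  let f : T →ₛₗ[algebraMap S T] T := ⟨AddHom.id T, by simp [Algebra.smul_def]⟩
  rw [isNoetherian_iff']
  have e := Submodule.orderIsoMapComapOfBijective f Function.bijective_id
  have h2 : WellFoundedGT (Submodule T T) := (isNoetherian_iff').1 inferInstance
  exact e.toOrderEmbedding.wellFoundedGT

lemma noeth_of_two {S T1 T2 : Type} [CommRing S] [CommRing T1] [CommRing T2] [IsNoetherianRing T1]
    [IsNoetherianRing T2] (f1 : S →+* T1) (f2 : S →+* T2) (h1 : Function.Surjective f1)
    (h2 : Function.Surjective f2) (hk : ∀ x, f1 x = 0 → f2 x = 0 → x = 0) : IsNoetherianRing S := by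
  let _ := f1.toAlgebra
  let _ := f2.toAlgebra
  have := noeth_of_surj (S := S) (T := T1) h1
  have := noeth_of_surj (S := S) (T := T2) h2
  let f : S →ₗ[S] T1 × T2 :=
    { toFun := fun p => (f1 p, f2 p)
      map_add' := fun p q => by simp
      map_smul' := fun p q => by
        apply Prod.ext
        · show f1 (p * q) = f1 p * f1 q
          rw [map_mul]
        · show f2 (p * q) = f2 p * f2 q
          rw [map_mul] }
  have hf : Function.Injective f := by
    rw [injective_iff_map_eq_zero]
    intro p h
    exact hk p (congrArg Prod.fst h) (congrArg Prod.snd h)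
  exact isNoetherian_of_injective f hf

instance isNoeth : IsNoetherianRing R := by
  refine noeth_of_two toA toB toA_surj toB_surj ?_
  intro p h1 h2
  apply Subtype.ext
  exact Prod.ext h1 h2

end

end Pool.Agent.J4.H20.NH
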