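import Pool.Agent.J4.H20.NH.A2

/-!
The powers of the maximal ideal of `R` are given by the orders of the power series; they are
integrally closed, and the completion of `R` is reduced.
-/

set_option autoImplicit false

namespace Pool.Agent.J4.H20.NH

open MvPowerSeries

noncomputable section

/-- pairs of power series of order at least `n` -/
def F (n : ℕ) : Ideal R where
  carrier := {p | (n : ℕ∞) ≤ p.1.1.order ∧ (n : ℕ∞) ≤ p.1.2.order}
  add_mem' := by
    rintro a b ⟨ha, hb⟩ ⟨hc, hd⟩
    exact ⟨le_trans (le_min ha hc) min_order_le_add, le_trans (le_min hb hd) min_order_le_add⟩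
  zero_mem' := by
    constructor
    · show (n : ℕ∞) ≤ (0 : A).order
      rw [order_zero]; exact le_top
    · show (n : ℕ∞) ≤ (0 : B).order
      rw [order_zero]; exact le_top
  smul_mem' := by
    rintro c x ⟨h1, h2⟩
    constructor
    · show (n : ℕ∞) ≤ (c.1.1 * x.1.1).order
      rw [order_mul]
      exact le_trans h1 le_add_self
    · show (n : ℕ∞) ≤ (c.1.2 * x.1.2).order
      rw [order_mul]
      exact le_trans h2 le_add_self

lemma mem_F {n : ℕ} {p : R} : p ∈ F n ↔ (n : ℕ∞) ≤ p.1.1.order ∧ (n : ℕ∞) ≤ p.1.2.order := Iff.rfl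

lemma F_zero : F 0 = ⊤ := by
  rw [Ideal.eq_top_iff_one, mem_F]
  simp

lemma F_one : F 1 = IsLocalRing.maximalIdeal R := by
  ext p
  rw [mem_max, mem_F, Nat.cast_one, one_le_order_iff_constCoeff_eq_zero,
    one_le_order_iff_constCoeff_eq_zero, cc_apply]
  constructor
  · intro h
    exact h.1
  · intro h
    exact ⟨h, by rw [← cc_apply', cc_apply]; exact h⟩

lemma F_mul (a b : ℕ) : F a * F b ≤ F (a + b) := by
  rw [Ideal.mul_le]
  rintro p ⟨h1, h2⟩ q ⟨h3, h4⟩
  constructor
  · show _ ≤ (p.1.1 * q.1.1).order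
    rw [order_mul]
    push_cast
    exact add_le_add h1 h3
  · show _ ≤ (p.1.2 * q.1.2).order
    rw [order_mul]
    push_cast
    exact add_le_add h2 h4

lemma pow_le_F (n : ℕ) : IsLocalRing.maximalIdeal R ^ n ≤ F n := by
  induction n with
  | zero => rw [F_zero]; exact le_top
  | succ n ih =>
    rw [pow_succ]
    refine le_trans (Ideal.mul_mono ih F_one.ge) (F_mul n 1)

lemma ccA {n : ℕ} (hn : 1 ≤ n) {σ : Type} {f : P σ} (hf : (n : ℕ∞) ≤ f.order) :
    constantCoeff f = 0 := by
  rw [← one_le_order_iff_constCoeff_eq_zero]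
  refine le_trans ?_ hf
  exact_mod_cast hn

/-- the element `(f, 0)` of `R` -/
def inA (f : A) (hf : constantCoeff f = 0) : R := ⟨(f, 0), by rw [mem_R]; simpa using hf⟩
/-- the element `(0, g)` of `R` -/
def inB (g : B) (hg : constantCoeff g = 0) : R := ⟨(0, g), by rw [mem_R]; simpa using hg.symm⟩

lemma inA_mem {n : ℕ} {f : A} (hf : constantCoeff f = 0) (h : (n : ℕ∞) ≤ f.order) : inA f hf ∈ F n := by
  rw [mem_F]
  refine ⟨h, ?_⟩
  show _ ≤ (0 : B).order
  rw [order_zero]; exact le_top

lemma inB_mem {n : ℕ} {f : B} (hf : constantCoeff f = 0) (h : (n : ℕ∞) ≤ f.order) : inB f hf ∈ F n := by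
  rw [mem_F]
  refine ⟨?_, h⟩
  show _ ≤ (0 : A).order
  rw [order_zero]; exact le_top

lemma split_mem {p : R} (h : constantCoeff p.1.1 = 0) (h' : constantCoeff p.1.2 = 0) :
    p = inA p.1.1 h + inB p.1.2 h' := by
  apply Subtype.ext
  apply Prod.ext
  · show p.1.1 = p.1.1 + 0
    rw [add_zero]
  · show p.1.2 = 0 + p.1.2
    rw [zero_add]

lemma ccX {σ : Type} (i : σ) : constantCoeff (X i : P σ) = 0 := constantCoeff_X i

lemma inA_dec {n : ℕ} (hn : 1 ≤ n) {f : A} (hf : constantCoeff f = 0)
    (h : ((n + 1 : ℕ) : ℕ∞) ≤ f.order) : ∃ g : Fin 2 → A, ∃ hg : ∀ i, constantCoeff (g i) = 0,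
      (∀ i, (n : ℕ∞) ≤ (g i).order) ∧ inA f hf = ∑ i, inA (X i) (ccX i) * inA (g i) (hg i) := by
  obtain ⟨g, hg, hgo⟩ := decomp f n h
  refine ⟨g, fun i => ccA hn (hgo i), hgo, ?_⟩
  apply Subtype.ext
  rw [Fin.sum_univ_two]
  rw [Fin.sum_univ_two] at hg
  apply Prod.ext
  · exact hg
  · show (0 : B) = 0 * 0 + 0 * 0
    rw [mul_zero, add_zero]

lemma inB_dec {n : ℕ} (hn : 1 ≤ n) {f : B} (hf : constantCoeff f = 0)
    (h : ((n + 1 : ℕ) : ℕ∞) ≤ f.order) : ∃ g : B, ∃ hg : constantCoeff g = 0,
      (n : ℕ∞) ≤ g.order ∧ inB f hf = inB (X ()) (ccX ()) * inB g hg := by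
  obtain ⟨g, hg, hgo⟩ := decomp f n h
  refine ⟨g (), ccA hn (hgo ()), hgo (), ?_⟩
  apply Subtype.ext
  rw [Fintype.univ_punit, Finset.sum_singleton] at hg
  apply Prod.ext
  · show (0 : A) = 0 * 0
    rw [mul_zero]
  · exact hg

lemma F_le_pow (n : ℕ) : F n ≤ IsLocalRing.maximalIdeal R ^ n := by
  rcases Nat.eq_zero_or_pos n with rfl | hn
  · simp
  induction n, hn using Nat.le_induction with
  | base => rw [pow_one, ← F_one]
  | succ n hn ih =>
    intro p hp
    have hp' := hp
    rw [mem_F] at hp'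
    have hcc : constantCoeff p.1.1 = 0 := ccA (by omega) hp'.1
    have hcc' : constantCoeff p.1.2 = 0 := ccA (by omega) hp'.2
    rw [split_mem hcc hcc', pow_succ']
    obtain ⟨g, hg, hgo, he⟩ := inA_dec hn hcc hp'.1
    obtain ⟨g', hg', hgo', he'⟩ := inB_dec hn hcc' hp'.2
    have hX : ∀ i, inA (X i) (ccX i) ∈ IsLocalRing.maximalIdeal R := by
      intro i
      rw [mem_max]
      exact ccX i
    have hX' : inB (X ()) (ccX ()) ∈ IsLocalRing.maximalIdeal R := by
      rw [mem_max, cc_apply']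
      exact ccX ()
    rw [he, he']
    refine Ideal.add_mem _ (Ideal.sum_mem _ fun i _ => ?_) ?_
    · exact Ideal.mul_mem_mul (hX i) (ih (inA_mem (hg i) (hgo i)))
    · exact Ideal.mul_mem_mul hX' (ih (inB_mem hg' hgo'))

lemma pow_eq_F (n : ℕ) : IsLocalRing.maximalIdeal R ^ n = F n := le_antisymm (pow_le_F n) (F_le_pow n)

lemma half {σ : Type} {f : P σ} {n : ℕ} (h : ((2 * n : ℕ) : ℕ∞) ≤ (f ^ 2).order) :
    (n : ℕ∞) ≤ f.order := by
  rw [pow_two, order_mul] at h
  by_contra hcon
  push Not at hcon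
  obtain ⟨m, hm⟩ := ENat.ne_top_iff_exists.1 (ne_top_of_lt hcon)
  rw [← hm] at h hcon
  have h1 : 2 * n ≤ m + m := by exact_mod_cast h
  have h2 : m < n := by exact_mod_cast hcon
  omega

lemma reduced : IsReduced (AdicCompletion (IsLocalRing.maximalIdeal R) R) := by
  rw [isReduced_iff_pow_one_lt 2 (by norm_num)]
  intro x hx
  obtain ⟨a, rfl⟩ := AdicCompletion.mk_surjective _ _ x
  apply AdicCompletion.ext_evalₐ
  intro n
  rw [map_zero, AdicCompletion.evalₐ_mk, Ideal.Quotient.eq_zero_iff_mem]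
  have h1 : (a.val (2 * n)) ^ 2 ∈ IsLocalRing.maximalIdeal R ^ (2 * n) := by
    rw [← Ideal.Quotient.eq_zero_iff_mem, map_pow, ← AdicCompletion.evalₐ_mk, ← map_pow, hx, map_zero]
  have h2 : a.val (2 * n) ∈ IsLocalRing.maximalIdeal R ^ n := by
    rw [pow_eq_F] at h1 ⊢
    exact ⟨half h1.1, half h1.2⟩
  have h3 := AdicCompletion.AdicCauchySequence.mk_eq_mk (show n ≤ 2 * n by omega) a
  rw [Submodule.Quotient.eq, smul_eq_mul, Ideal.mul_top] at h3
  have h4 := Ideal.sub_mem _ h2 h3
  have h5 : a.val (2 * n) - (a.val (2 * n) - a.val n) = a.val n := by ring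
  have h6 : a.val (2 * n) - (a (2 * n) - a n) = a.val n := h5
  rw [h6] at h4
  exact h4

/-- The powers of the maximal ideal are integrally closed. -/
lemma integral_iff (n : ℕ) (x : R) : x ∈ F n ↔
    ∃ k : ℕ, 0 < k ∧ ∃ a : ℕ → R, (∀ j, a j ∈ ((IsLocalRing.maximalIdeal R) ^ n) ^ j) ∧
      x ^ k + ∑ j ∈ Finset.range k, a (k - j) * x ^ j = 0 := by
  constructor
  · intro h
    refine ⟨1, one_pos, fun j => if j = 1 then -x else 0, ?_, ?_⟩
    · intro j
      dsimp only
      split_ifs with hj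
      · subst hj
        rw [pow_one]
        exact neg_mem (F_le_pow n h)
      · exact zero_mem _
    · simp
  · rintro ⟨k, hk, a, ha, he⟩
    have key : ∀ {σ : Type} (f : P σ) (b : ℕ → P σ), (∀ j, ((n * j : ℕ) : ℕ∞) ≤ (b j).order) →
        f ^ k + ∑ j ∈ Finset.range k, b (k - j) * f ^ j = 0 → (n : ℕ∞) ≤ f.order := by
      intro σ f b hb hf
      by_contra hcon
      push Not at hcon
      obtain ⟨m, hm⟩ := ENat.ne_top_iff_exists.1 (ne_top_of_lt hcon)
      have hmn : m < n := by
        rw [← hm] at hcon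
        exact_mod_cast hcon
      have hpow : ∀ i : ℕ, (f ^ i).order = ((i * m : ℕ) : ℕ∞) := by
        intro i
        induction i with
        | zero =>
          rw [pow_zero, zero_mul, Nat.cast_zero]
          by_contra h0
          rw [← ne_eq, order_ne_zero_iff_constCoeff_eq_zero, map_one] at h0
          exact one_ne_zero h0
        | succ i ih =>
          rw [pow_succ, order_mul, ih, ← hm]
          norm_cast
          ring
      have h1 : ((k * m + 1 : ℕ) : ℕ∞) ≤ (∑ j ∈ Finset.range k, b (k - j) * f ^ j).order := by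
        rw [le_order_iff]
        intro d hd
        rw [map_sum]
        apply Finset.sum_eq_zero
        intro j hj
        rw [Finset.mem_range] at hj
        have h2 : ((k * m + 1 : ℕ) : ℕ∞) ≤ (b (k - j) * f ^ j).order := by
          rw [order_mul, hpow]
          refine le_trans ?_ (add_le_add_left (hb (k - j)) _)
          norm_cast
          obtain ⟨t, rfl⟩ : ∃ t, k = j + 1 + t := ⟨k - j - 1, by omega⟩
          have h3 : j + 1 + t - j = t + 1 := by omega
          rw [h3]
          nlinarith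
        exact (le_order_iff _ _).1 h2 d hd
      have h4 : (f ^ k).order = (∑ j ∈ Finset.range k, b (k - j) * f ^ j).order := by
        have : f ^ k = - ∑ j ∈ Finset.range k, b (k - j) * f ^ j := by
          linear_combination hf
        rw [this, order_neg]
      rw [← h4, hpow] at h1
      norm_cast at h1
      omega
    have hF : ∀ j, a j ∈ F (n * j) := by
      intro j
      have := ha j
      rw [← pow_mul, pow_eq_F] at this
      exact this
    constructor
    · refine key (toA x) (fun j => toA (a j)) (fun j => (hF j).1) ?_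
      have := congrArg toA he
      simpa only [map_add, map_pow, map_sum, map_mul, map_zero] using this
    · refine key (toB x) (fun j => toB (a j)) (fun j => (hF j).2) ?_
      have := congrArg toB he
      simpa only [map_add, map_pow, map_sum, map_mul, map_zero] using this

end

end Pool.Agent.J4.H20.NH
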