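import Pool.Agent.J4.H20.NH.A3

/-!
The dimension of `R` is two.
-/

set_option autoImplicit false

namespace Pool.Agent.J4.H20.NH

open MvPowerSeries

noncomputable section

lemma dimA : (2 : WithBot ℕ∞) ≤ ringKrullDim A := by
  have h0 : (0 : WithBot ℕ∞) ≤ ringKrullDim (P (Fin 0)) := ringKrullDim_nonneg_of_nontrivial
  have h1 : ringKrullDim (P (Fin 0)) + 1 ≤ ringKrullDim (P (Fin 1)) := by
    rw [ringKrullDim_eq_of_ringEquiv (finSuccEquiv ℚ 0).toRingEquiv]
    exact ringKrullDim_succ_le_ringKrullDim_powerseries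
  have h2 : ringKrullDim (P (Fin 1)) + 1 ≤ ringKrullDim (P (Fin 2)) := by
    rw [ringKrullDim_eq_of_ringEquiv (finSuccEquiv ℚ 1).toRingEquiv]
    exact ringKrullDim_succ_le_ringKrullDim_powerseries
  calc (2 : WithBot ℕ∞) = 0 + 1 + 1 := by norm_num
    _ ≤ ringKrullDim (P (Fin 0)) + 1 + 1 := by gcongr
    _ ≤ ringKrullDim (P (Fin 1)) + 1 := by gcongr
    _ ≤ _ := h2

/-- the parameters `(y, 0)` and `(z, x)` -/
def par1 : R := inA (X 0) (ccX 0)
def par2 : R := ⟨(X 1, X ()), by rw [mem_R]; rw [ccX, ccX]⟩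

lemma F_two_le : F 2 ≤ Ideal.span {par1, par2} := by
  intro p hp
  rw [mem_F] at hp
  have hcc : constantCoeff p.1.1 = 0 := ccA (by omega) hp.1
  have hcc' : constantCoeff p.1.2 = 0 := ccA (by omega) hp.2
  obtain ⟨g, hg, hgo, he⟩ := inA_dec le_rfl hcc hp.1
  obtain ⟨g', hg', hgo', he'⟩ := inB_dec le_rfl hcc' hp.2
  rw [split_mem hcc hcc', he, he', Fin.sum_univ_two]
  have e1 : inA (X 1) (ccX 1) * inA (g 1) (hg 1) = par2 * inA (g 1) (hg 1) := by
    apply Subtype.ext
    apply Prod.ext
    · rfl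
    · show (0 : B) * 0 = X () * 0
      rw [mul_zero, mul_zero]
  have e2 : inB (X ()) (ccX ()) * inB g' hg' = par2 * inB g' hg' := by
    apply Subtype.ext
    apply Prod.ext
    · show (0 : A) * 0 = X 1 * 0
      rw [mul_zero, mul_zero]
    · rfl
  rw [e1, e2]
  have m1 : par1 ∈ Ideal.span {par1, par2} := Ideal.subset_span (by simp)
  have m2 : par2 ∈ Ideal.span {par1, par2} := Ideal.subset_span (by simp)
  refine Ideal.add_mem _ (Ideal.add_mem _ ?_ ?_) ?_
  · exact Ideal.mul_mem_right _ _ m1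
  · exact Ideal.mul_mem_right _ _ m2
  · exact Ideal.mul_mem_right _ _ m2

lemma max_minimal : IsLocalRing.maximalIdeal R ∈ (Ideal.span {par1, par2}).minimalPrimes := by
  rw [Ideal.minimalPrimes]
  have hle : Ideal.span {par1, par2} ≤ IsLocalRing.maximalIdeal R := by
    rw [Ideal.span_le]
    rintro p (rfl | rfl)
    · show par1 ∈ IsLocalRing.maximalIdeal R
      rw [mem_max]
      exact ccX 0
    · show par2 ∈ IsLocalRing.maximalIdeal R
      rw [mem_max]
      exact ccX 1
  refine ⟨⟨inferInstance, hle⟩, ?_⟩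
  rintro q ⟨hq, hq2⟩ -
  have h1 : IsLocalRing.maximalIdeal R ^ 2 ≤ q := by
    rw [pow_eq_F]
    exact F_two_le.trans hq2
  exact hq.le_of_pow_le h1

lemma dimR : ringKrullDim R = ((2 : ℕ) : WithBot ℕ∞) := by
  apply le_antisymm
  · rw [← IsLocalRing.maximalIdeal_height_eq_ringKrullDim]
    have h1 := Ideal.height_le_spanRank_toENat_of_mem_minimalPrimes _ _ max_minimal
    have h2 : Cardinal.toENat (Submodule.spanRank (Ideal.span {par1, par2})) ≤ 2 := by
      have h3 := Submodule.spanRank_span_le_card (R := R) (M := R) ({par1, par2} : Set R)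
      have h4 : Cardinal.mk ({par1, par2} : Set R) ≤ 2 := by
        have := Cardinal.mk_insert_le (a := par1) (s := ({par2} : Set R))
        rw [Cardinal.mk_singleton] at this
        refine this.trans ?_
        rw [one_add_one_eq_two]
      have h5 := Cardinal.toENat.monotone' (h3.trans h4)
      refine le_trans h5 ?_
      simp
    have h3 := h1.trans h2
    exact WithBot.coe_le_coe.2 h3
  · refine le_trans ?_ (ringKrullDim_le_of_surjective toA toA_surj)
    exact_mod_cast dimA

end

end Pool.Agent.J4.H20.NH
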