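import Pool.Agent.J4.H20.NH.A4

/-!
The lengths of the quotients of `R` by the powers of the maximal ideal.
-/

set_option autoImplicit false

namespace Pool.Agent.J4.H20.NH

open MvPowerSeries

noncomputable section

instance : IsLocalHom (algebraMap ℚ R) := ⟨fun a ha => by
  rw [isUnit_iff] at ha
  rw [isUnit_iff_ne_zero]
  rintro rfl
  exact ha (by rw [map_zero, map_zero])⟩

lemma cc_algebraMap (r : ℚ) : cc (algebraMap ℚ R r) = r := by
  rw [cc_apply]
  show constantCoeff (algebraMap ℚ A r) = r
  rw [MvPowerSeries.algebraMap_apply]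
  simp

lemma residue_length :
    Module.length (IsLocalRing.ResidueField ℚ) (IsLocalRing.ResidueField R) = 1 := by
  have hs : Function.Surjective
      (algebraMap (IsLocalRing.ResidueField ℚ) (IsLocalRing.ResidueField R)) := by
    intro x
    obtain ⟨p, rfl⟩ := IsLocalRing.residue_surjective x
    refine ⟨IsLocalRing.residue ℚ (cc p), ?_⟩
    have h1 : algebraMap (IsLocalRing.ResidueField ℚ) (IsLocalRing.ResidueField R)
        (IsLocalRing.residue ℚ (cc p)) = IsLocalRing.residue R (algebraMap ℚ R (cc p)) := rfl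
    rw [h1, ← sub_eq_zero, ← map_sub, IsLocalRing.residue_eq_zero_iff, mem_max, map_sub,
      cc_algebraMap, sub_self]
  rw [Module.length_eq_of_surjective (M := IsLocalRing.ResidueField R) hs]
  exact Module.length_eq_one _ _

lemma length_eq (M : Type) [AddCommGroup M] [Module ℚ M] [Module R M] [IsScalarTower ℚ R M] :
    Module.length R M = Module.length ℚ M := by
  rw [IsLocalRing.length_restrictScalars ℚ R M, residue_length, mul_one]

/-- index set of the monomials of degree at most `n` -/
abbrev TA (n : ℕ) : Type := {d : Fin 2 →₀ ℕ // Finsupp.degree d ≤ n}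

instance finTA (n : ℕ) : Finite (TA n) := by
  have h : {d : Fin 2 →₀ ℕ | Finsupp.degree d ≤ n}.Finite := Finsupp.finite_of_degree_le n
  exact h.to_subtype

lemma sum_choose (n : ℕ) : ∑ i ∈ Finset.range (n + 1), (i + 1) = (n + 2).choose 2 := by
  induction n with
  | zero => rfl
  | succ n ih =>
    rw [Finset.sum_range_succ, ih, Nat.choose_succ_succ' (n + 2) 1, Nat.choose_one_right]
    ring

lemma card_TA (n : ℕ) : Nat.card (TA n) = (n + 2).choose 2 := by
  let e : TA n ≃ (Σ i : Fin (n + 1), Fin (i.1 + 1)) := {
    toFun := fun d => ⟨⟨d.1 0 + d.1 1, by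
      have h := d.2
      rw [Finsupp.degree_eq_sum, Fin.sum_univ_two] at h
      omega⟩, ⟨d.1 0, by
        show d.1 0 < d.1 0 + d.1 1 + 1
        omega⟩⟩
    invFun := fun s => ⟨Finsupp.equivFunOnFinite.symm ![s.2.1, s.1.1 - s.2.1], by
      have h1 := s.1.2
      have h2 := s.2.2
      rw [Finsupp.degree_eq_sum, Fin.sum_univ_two]
      simp
      omega⟩
    left_inv := by
      intro d
      apply Subtype.ext
      ext i
      fin_cases i <;> simp
    right_inv := by
      rintro ⟨⟨i, hi⟩, ⟨j, hj⟩⟩
      have h3 : j + (i - j) = i := by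
        have : j < i + 1 := hj
        omega
      apply Sigma.ext
      · apply Fin.ext
        simpa using h3
      · have h4 : ∀ (a b : Fin (n + 1)) (x : Fin (a.1 + 1)) (y : Fin (b.1 + 1)), a = b →
            x.1 = y.1 → HEq x y := by
          intro a b x y hab hxy
          subst hab
          rw [heq_iff_eq]
          exact Fin.ext hxy
        apply h4
        · apply Fin.ext
          simpa using h3
        · simp }
  rw [Nat.card_congr e, Nat.card_eq_fintype_card, Fintype.card_sigma]
  simp only [Fintype.card_fin]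
  rw [Fin.sum_univ_eq_sum_range (fun i => i + 1) (n + 1), sum_choose]

/-- the coefficients of degree at most `n` of an element of `R` -/
def coeffs (n : ℕ) : R →ₗ[ℚ] (TA n → ℚ) × (Fin n → ℚ) where
  toFun p := (fun d => coeff d.1 p.1.1, fun i => coeff (Finsupp.single () (i.1 + 1)) p.1.2)
  map_add' p q := by
    apply Prod.ext
    · funext d
      show coeff d.1 (p.1.1 + q.1.1) = _
      rw [map_add]
      rfl
    · funext d
      show coeff _ (p.1.2 + q.1.2) = _
      rw [map_add]
      rfl
  map_smul' c p := by
    apply Prod.ext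
    · funext d
      show coeff d.1 (c • p.1.1) = _
      rw [map_smul]
      rfl
    · funext d
      show coeff _ (c • p.1.2) = _
      rw [map_smul]
      rfl

lemma coeffs_surj (n : ℕ) : Function.Surjective (coeffs n) := by
  classical
  rintro ⟨u, v⟩
  let f : A := fun d => if h : Finsupp.degree d ≤ n then u ⟨d, h⟩ else 0
  let g : B := fun d => if h : 1 ≤ d () ∧ d () ≤ n then v ⟨d () - 1, by omega⟩ else
    if d = 0 then constantCoeff f else 0
  have hf : ∀ d, coeff d f = if h : Finsupp.degree d ≤ n then u ⟨d, h⟩ else 0 := fun d => rfl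
  have hg : ∀ d, coeff d g = if h : 1 ≤ d () ∧ d () ≤ n then v ⟨d () - 1, by omega⟩ else
    if d = 0 then constantCoeff f else 0 := fun d => rfl
  have hmem : (f, g) ∈ R := by
    rw [mem_R]
    show constantCoeff f = constantCoeff g
    rw [← coeff_zero_eq_constantCoeff_apply g, hg]
    simp
  refine ⟨⟨(f, g), hmem⟩, ?_⟩
  apply Prod.ext
  · funext d
    show coeff d.1 f = u d
    rw [hf, dif_pos d.2]
  · funext i
    show coeff (Finsupp.single () (i.1 + 1)) g = v i
    rw [hg]
    have hi := i.2
    rw [dif_pos]
    · simp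
    · simp

lemma coeffs_ker (n : ℕ) (p : R) : coeffs n p = 0 ↔ p ∈ F (n + 1) := by
  rw [mem_F, le_order_iff, le_order_iff]
  constructor
  · intro h
    have h1 : ∀ d, Finsupp.degree d < n + 1 → coeff d p.1.1 = 0 := by
      intro d hd
      exact congrFun (congrArg Prod.fst h) ⟨d, by omega⟩
    refine ⟨h1, ?_⟩
    intro d hd
    have hd1 : d = Finsupp.single () (d ()) := by
      ext
      simp
    have hd2 : Finsupp.degree d = d () := by
      conv_lhs => rw [hd1]
      simp
    rcases Nat.eq_zero_or_pos (d ()) with h0 | h0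
    · rw [h0, Finsupp.single_zero] at hd1
      rw [hd1, coeff_zero_eq_constantCoeff_apply, ← cc_apply', cc_apply,
        ← coeff_zero_eq_constantCoeff_apply]
      exact h1 0 (by simp)
    · have := congrFun (congrArg Prod.snd h) ⟨d () - 1, by omega⟩
      have h2 : coeff (Finsupp.single () (d () - 1 + 1)) p.1.2 = 0 := this
      rw [Nat.sub_add_cancel h0, ← hd1] at h2
      exact h2
  · rintro ⟨h1, h2⟩
    apply Prod.ext
    · funext d
      exact h1 d.1 (by have := d.2; omega)
    · funext i
      apply h2
      have := i.2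
      simp

instance instModQ (n : ℕ) : Module R (R ⧸ F n) := Submodule.Quotient.module _
instance instModQ' (n : ℕ) : Module ℚ (R ⧸ F n) := Submodule.Quotient.module' _
instance instTow (n : ℕ) : IsScalarTower ℚ R (R ⧸ F n) := Submodule.Quotient.isScalarTower _ _

lemma length_quot (n : ℕ) : Module.length R (R ⧸ F (n + 1)) =
    (((n + 2).choose 2 + n : ℕ) : ℕ∞) := by
  rw [length_eq (R ⧸ F (n + 1))]
  let e : (R ⧸ (F (n + 1)).restrictScalars ℚ) ≃ₗ[ℚ] (TA n → ℚ) × (Fin n → ℚ) :=
    (Submodule.quotEquivOfEq _ _ (by
      ext p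
      rw [LinearMap.mem_ker, coeffs_ker]
      rfl)).trans ((coeffs n).quotKerEquivOfSurjective (coeffs_surj n))
  have h := LinearEquiv.length_eq e
  have h2 : Module.length ℚ (R ⧸ F (n + 1)) = Module.length ℚ (R ⧸ (F (n + 1)).restrictScalars ℚ) := rfl
  rw [h2, h, Module.length_eq_finrank]
  have : Fintype (TA n) := Fintype.ofFinite _
  rw [Module.finrank_prod, Module.finrank_fintype_fun_eq_card, Module.finrank_fin_fun,
    ← Nat.card_eq_fintype_card, card_TA]

end

end Pool.Agent.J4.H20.NH
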